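import Mathlib

/-!
The function `f n = (-1)^{v_2(n)}` and the bounded correlation sums `∑ f(k+1) f(k+2) f(k+3) f(k+6)`.
-/

set_option autoImplicit false

namespace Pool.Agent.R357.DC

/-- the completely multiplicative function with `f 2 = -1` and `f p = 1` for odd primes `p` -/
def f (n : ℕ) : ℤ := (-1) ^ (padicValNat 2 n)

lemma f_mul {m n : ℕ} (hm : 1 ≤ m) (hn : 1 ≤ n) : f (m * n) = f m * f n := by
  unfold f
  rw [padicValNat.mul (by omega) (by omega), pow_add]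

lemma f_sq (n : ℕ) : f n * f n = 1 := by
  unfold f
  rw [← mul_pow]; norm_num

lemma f_pm (n : ℕ) : f n = 1 ∨ f n = -1 := neg_one_pow_eq_or ℤ _

lemma f_two_mul {n : ℕ} (hn : 1 ≤ n) : f (2 * n) = - f n := by
  rw [f_mul (by norm_num) hn]
  have : f 2 = -1 := by simp [f]
  rw [this]; ring

lemma f_odd (n : ℕ) : f (2 * n + 1) = 1 := by
  unfold f
  rw [padicValNat.eq_zero_of_not_dvd (by omega), pow_zero]

/-- the correlation -/
def U (k : ℕ) : ℤ := f k * f (k + 1) * f (k + 2) * f (k + 5)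

lemma U0 {m : ℕ} (hm : 1 ≤ m) : U (8 * m) = f m := by
  unfold U
  rw [show 8 * m = 2 * (2 * (2 * m)) by ring, show 2 * (2 * (2 * m)) + 1 = 2 * (4 * m) + 1 by ring,
    show 2 * (2 * (2 * m)) + 2 = 2 * (2 * (2 * m) + 1) by ring,
    show 2 * (2 * (2 * m)) + 5 = 2 * (4 * m + 2) + 1 by ring, f_odd, f_odd, f_two_mul (by omega),
    f_two_mul (by omega), f_two_mul (by omega), f_two_mul (by omega), f_odd]
  ring

lemma U1 (m : ℕ) : U (8 * m + 1) = 1 := by
  unfold U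
  rw [show 8 * m + 1 = 2 * (4 * m) + 1 by ring, show 2 * (4 * m) + 1 + 1 = 2 * (2 * (2 * m) + 1) by ring,
    show 2 * (4 * m) + 1 + 2 = 2 * (4 * m + 1) + 1 by ring,
    show 2 * (4 * m) + 1 + 5 = 2 * (2 * (2 * m + 1) + 1) by ring, f_odd, f_odd, f_two_mul (by omega),
    f_two_mul (by omega), f_odd, f_odd]
  ring

lemma U2 (m : ℕ) : U (8 * m + 2) = -1 := by
  unfold U
  rw [show 8 * m + 2 = 2 * (2 * (2 * m) + 1) by ring, show 2 * (2 * (2 * m) + 1) + 1 = 2 * (4 * m + 1) + 1 by ring,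
    show 2 * (2 * (2 * m) + 1) + 2 = 2 * (2 * (2 * m + 1)) by ring,
    show 2 * (2 * (2 * m) + 1) + 5 = 2 * (4 * m + 3) + 1 by ring, f_odd, f_odd, f_two_mul (by omega),
    f_two_mul (by omega), f_two_mul (by omega), f_odd, f_odd]
  ring

lemma U3 (m : ℕ) : U (8 * m + 3) = - f (m + 1) := by
  unfold U
  rw [show 8 * m + 3 = 2 * (4 * m + 1) + 1 by ring,
    show 2 * (4 * m + 1) + 1 + 1 = 2 * (2 * (2 * m + 1)) by ring,
    show 2 * (4 * m + 1) + 1 + 2 = 2 * (4 * m + 2) + 1 by ring,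
    show 2 * (4 * m + 1) + 1 + 5 = 2 * (2 * (2 * (m + 1))) by ring, f_odd, f_odd, f_two_mul (by omega),
    f_two_mul (by omega), f_two_mul (by omega), f_two_mul (by omega), f_two_mul (by omega), f_odd]
  ring

lemma U4 (m : ℕ) : U (8 * m + 4) = -1 := by
  unfold U
  rw [show 8 * m + 4 = 2 * (2 * (2 * m + 1)) by ring,
    show 2 * (2 * (2 * m + 1)) + 1 = 2 * (4 * m + 2) + 1 by ring,
    show 2 * (2 * (2 * m + 1)) + 2 = 2 * (2 * (2 * m + 1) + 1) by ring,
    show 2 * (2 * (2 * m + 1)) + 5 = 2 * (4 * m + 4) + 1 by ring, f_odd, f_odd, f_two_mul (by omega),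
    f_two_mul (by omega), f_two_mul (by omega), f_odd, f_odd]
  ring

lemma U5 (m : ℕ) : U (8 * m + 5) = 1 := by
  unfold U
  rw [show 8 * m + 5 = 2 * (4 * m + 2) + 1 by ring,
    show 2 * (4 * m + 2) + 1 + 1 = 2 * (2 * (2 * m + 1) + 1) by ring,
    show 2 * (4 * m + 2) + 1 + 2 = 2 * (4 * m + 3) + 1 by ring,
    show 2 * (4 * m + 2) + 1 + 5 = 2 * (2 * (2 * m + 2) + 1) by ring, f_odd, f_odd, f_two_mul (by omega),
    f_two_mul (by omega), f_odd, f_odd]
  ring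

lemma U6 (m : ℕ) : U (8 * m + 6) = f (m + 1) := by
  unfold U
  rw [show 8 * m + 6 = 2 * (2 * (2 * m + 1) + 1) by ring,
    show 2 * (2 * (2 * m + 1) + 1) + 1 = 2 * (4 * m + 3) + 1 by ring,
    show 2 * (2 * (2 * m + 1) + 1) + 2 = 2 * (2 * (2 * (m + 1))) by ring,
    show 2 * (2 * (2 * m + 1) + 1) + 5 = 2 * (4 * m + 5) + 1 by ring, f_odd, f_odd, f_two_mul (by omega),
    f_two_mul (by omega), f_two_mul (by omega), f_two_mul (by omega), f_odd]
  ring

lemma U7 (m : ℕ) : U (8 * m + 7) = - f (m + 1) := by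
  unfold U
  rw [show 8 * m + 7 = 2 * (4 * m + 3) + 1 by ring,
    show 2 * (4 * m + 3) + 1 + 1 = 2 * (2 * (2 * (m + 1))) by ring,
    show 2 * (4 * m + 3) + 1 + 2 = 2 * (4 * m + 4) + 1 by ring,
    show 2 * (4 * m + 3) + 1 + 5 = 2 * (2 * (2 * (m + 1) + 1)) by ring, f_odd, f_odd, f_two_mul (by omega),
    f_two_mul (by omega), f_two_mul (by omega), f_two_mul (by omega), f_two_mul (by omega), f_odd]
  ring

/-- the partial sums -/
def S (n : ℕ) : ℤ := ∑ k ∈ Finset.range n, U (k + 2)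

lemma S_succ (n : ℕ) : S (n + 1) = S n + U (n + 2) := by
  unfold S; rw [Finset.sum_range_succ]

lemma f_one : f 1 = 1 := by simp [f]

lemma S_small : S 0 = 0 ∧ S 1 = -1 ∧ S 2 = -2 ∧ S 3 = -3 ∧ S 4 = -2 ∧ S 5 = -1 ∧ S 6 = -2 := by
  have h0 : S 0 = 0 := by simp [S]
  have u2 := U2 0
  have u3 := U3 0
  have u4 := U4 0
  have u5 := U5 0
  have u6 := U6 0
  have u7 := U7 0
  simp only [Nat.mul_zero, Nat.zero_add, f_one] at u2 u3 u4 u5 u6 u7
  have h1 := S_succ 0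
  have h2 := S_succ 1
  have h3 := S_succ 2
  have h4 := S_succ 3
  have h5 := S_succ 4
  have h6 := S_succ 5
  simp only [Nat.zero_add] at h1
  norm_num at h1 h2 h3 h4 h5 h6
  omega

lemma S_block (m : ℕ) : S (8 * m + 6) = -1 - f (m + 1) := by
  induction m with
  | zero =>
    have := S_small.2.2.2.2.2.2
    simp only [Nat.mul_zero, Nat.zero_add, f_one]
    rw [this]; norm_num
  | succ m ih =>
    have t0 := S_succ (8 * m + 6)
    have t1 := S_succ (8 * m + 6 + 1)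
    have t2 := S_succ (8 * m + 6 + 2)
    have t3 := S_succ (8 * m + 6 + 3)
    have t4 := S_succ (8 * m + 6 + 4)
    have t5 := S_succ (8 * m + 6 + 5)
    have t6 := S_succ (8 * m + 6 + 6)
    have t7 := S_succ (8 * m + 6 + 7)
    rw [show 8 * m + 6 + 2 = 8 * (m + 1) by ring, U0 (by omega)] at t0
    rw [show 8 * m + 6 + 1 + 2 = 8 * (m + 1) + 1 by ring, U1, add_assoc] at t1
    rw [show 8 * m + 6 + 2 + 2 = 8 * (m + 1) + 2 by ring, U2, add_assoc] at t2
    rw [show 8 * m + 6 + 3 + 2 = 8 * (m + 1) + 3 by ring, U3, add_assoc] at t3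
    rw [show 8 * m + 6 + 4 + 2 = 8 * (m + 1) + 4 by ring, U4, add_assoc] at t4
    rw [show 8 * m + 6 + 5 + 2 = 8 * (m + 1) + 5 by ring, U5, add_assoc] at t5
    rw [show 8 * m + 6 + 6 + 2 = 8 * (m + 1) + 6 by ring, U6, add_assoc] at t6
    rw [show 8 * m + 6 + 7 + 2 = 8 * (m + 1) + 7 by ring, U7, add_assoc] at t7
    norm_num at t1 t2 t3 t4 t5 t6 t7
    rw [show 8 * (m + 1) + 6 = 8 * m + 6 + 8 by ring]
    omega

/-- the partial sums stay in `[-3, 0]` -/
theorem S_bound (n : ℕ) : -3 ≤ S n ∧ S n ≤ 0 := by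
  obtain ⟨s0, s1, s2, s3, s4, s5, s6⟩ := S_small
  rcases Nat.lt_or_ge n 6 with h | h
  · interval_cases n
    · omega
    · omega
    · omega
    · omega
    · omega
    · omega
  · obtain ⟨m, r, hr, rfl⟩ : ∃ m r, r < 8 ∧ n = 8 * m + 6 + r :=
      ⟨(n - 6) / 8, (n - 6) % 8, Nat.mod_lt _ (by norm_num), by omega⟩
    have b := S_block m
    have t0 := S_succ (8 * m + 6)
    have t1 := S_succ (8 * m + 6 + 1)
    have t2 := S_succ (8 * m + 6 + 2)
    have t3 := S_succ (8 * m + 6 + 3)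
    have t4 := S_succ (8 * m + 6 + 4)
    have t5 := S_succ (8 * m + 6 + 5)
    have t6 := S_succ (8 * m + 6 + 6)
    rw [show 8 * m + 6 + 2 = 8 * (m + 1) by ring, U0 (by omega)] at t0
    rw [show 8 * m + 6 + 1 + 2 = 8 * (m + 1) + 1 by ring, U1, add_assoc] at t1
    rw [show 8 * m + 6 + 2 + 2 = 8 * (m + 1) + 2 by ring, U2, add_assoc] at t2
    rw [show 8 * m + 6 + 3 + 2 = 8 * (m + 1) + 3 by ring, U3, add_assoc] at t3
    rw [show 8 * m + 6 + 4 + 2 = 8 * (m + 1) + 4 by ring, U4, add_assoc] at t4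
    rw [show 8 * m + 6 + 5 + 2 = 8 * (m + 1) + 5 by ring, U5, add_assoc] at t5
    rw [show 8 * m + 6 + 6 + 2 = 8 * (m + 1) + 6 by ring, U6, add_assoc] at t6
    norm_num at t1 t2 t3 t4 t5 t6
    have p1 := f_pm (m + 1)
    have p2 := f_pm (m + 1 + 1)
    interval_cases r
    · simp only [Nat.add_zero]; omega
    · omega
    · omega
    · omega
    · omega
    · omega
    · omega
    · omega

end Pool.Agent.R357.DC
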